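import Mathlib

/-!
# Translation can shrink the loneliness gap

For every positive integer `a`, every odd prime `p` not dividing `a` and every `n > p` there is an
`n`-set `V` such that `V` and `a + V` both have greatest common divisor `1`,
`1 / p ≤ κ(V) < 1 / 2` and `κ(a + V) ≤ 1 / n`. In particular `κ(a + V) < κ(V)`.

The set is `V = {a (p k - 1) : 1 ≤ k ≤ n - 1} ∪ {x}` with `x = 1` or `x = 1 + 2 a`. No element of `V`
is divisible by `p`, hence the time `1 / p`; and `a + V` contains `a p, 2 a p, ..., (n - 1) a p`, so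
that Dirichlet's theorem bounds its gap by `1 / n`.
-/

set_option autoImplicit false

namespace Pool.Agent.Results.MP_64d5df_nt.TranslationShrinksGap

/-- The distance to the nearest integer. -/
noncomputable def distInt (x : ℝ) : ℝ := |x - round x|

/-- The loneliness gap of a finite set of speeds: the supremum over all real `t` of the minimum over
`v ∈ V` of the distance of `t v` to the nearest integer. -/
noncomputable def κ (V : Finset ℕ) : ℝ := ⨆ t : ℝ, ⨅ v : V, distInt (t * (v : ℕ))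

/-- The translate `a + V`. -/
def translate (a : ℕ) (V : Finset ℕ) : Finset ℕ := V.image (fun v => a + v)

theorem bdd (V : Finset ℕ) (t : ℝ) : BddBelow (Set.range fun v : V => distInt (t * (v : ℕ))) :=
  ⟨0, by rintro _ ⟨v, rfl⟩; exact abs_nonneg _⟩

theorem inf_le {V : Finset ℕ} (t : ℝ) {v : ℕ} (hv : v ∈ V) :
    (⨅ v : V, distInt (t * (v : ℕ))) ≤ distInt (t * v) :=
  ciInf_le (bdd V t) ⟨v, hv⟩

theorem bddA {V : Finset ℕ} (hV : V.Nonempty) :
    BddAbove (Set.range fun t : ℝ => ⨅ v : V, distInt (t * (v : ℕ))) := by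
  obtain ⟨v, hv⟩ := hV
  refine ⟨1 / 2, ?_⟩
  rintro _ ⟨t, rfl⟩
  exact (inf_le t hv).trans (abs_sub_round _)

theorem le_κ {V : Finset ℕ} (hV : V.Nonempty) {c : ℝ} (t : ℝ)
    (h : ∀ v ∈ V, c ≤ distInt (t * v)) : c ≤ κ V := by
  refine le_trans ?_ (le_ciSup (bddA hV) t)
  have : Nonempty V := hV.to_subtype
  exact le_ciInf fun v => h v v.2

theorem κ_le {V : Finset ℕ} {c : ℝ} (h : ∀ t : ℝ, ∃ v ∈ V, distInt (t * v) ≤ c) : κ V ≤ c := by
  refine ciSup_le fun t => ?_
  obtain ⟨v, hv, hvc⟩ := h t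
  exact (inf_le t hv).trans hvc

/-- A natural number not divisible by `p` is at distance at least `1 / p` from the integers after
division by `p`. -/
theorem dist_div {p v : ℕ} (hp : 0 < p) (h : ¬ p ∣ v) : 1 / (p : ℝ) ≤ distInt (1 / (p : ℝ) * v) := by
  have hp' : (0 : ℝ) < p := by exact_mod_cast hp
  unfold distInt
  set m : ℤ := round (1 / (p : ℝ) * v) with hm
  have hne : (v : ℤ) - m * p ≠ 0 := by
    intro h0
    apply h
    have : (p : ℤ) ∣ (v : ℤ) := ⟨m, by linarith⟩
    exact_mod_cast this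
  have h1 : (1 : ℝ) ≤ |((v : ℤ) - m * p : ℤ)| := by
    exact_mod_cast Int.one_le_abs hne
  have h2 : 1 / (p : ℝ) * v - m = ((((v : ℤ) - m * p : ℤ)) : ℝ) / p := by
    push_cast
    field_simp
  rw [h2, abs_div, abs_of_pos hp']
  exact div_le_div_of_nonneg_right (by exact_mod_cast h1) hp'.le

/-- Two speeds of different parity cannot both be nearly half a lap away. -/
theorem parity_bound {v w : ℕ} (hv : 0 < v) (hpar : ¬ (2 : ℤ) ∣ (v : ℤ) - w) (t : ℝ) :
    distInt (t * v) ≤ 1 / 2 - 1 / (2 * ((v : ℝ) + w)) ∨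
      distInt (t * w) ≤ 1 / 2 - 1 / (2 * ((v : ℝ) + w)) := by
  by_contra hcon
  push Not at hcon
  obtain ⟨h1, h2⟩ := hcon
  have hv' : (0 : ℝ) < v := by exact_mod_cast hv
  have hw' : (0 : ℝ) ≤ w := Nat.cast_nonneg w
  have hs : (0 : ℝ) < (v : ℝ) + w := by linarith
  set ε : ℝ := 1 / (2 * ((v : ℝ) + w)) with hε
  have hε0 : 0 < ε := by positivity
  have hεs : ε * ((v : ℝ) + w) = 1 / 2 := by rw [hε]; field_simp
  -- `t v = A + 1/2 + e₁`
  have key : ∀ y : ℝ, 1 / 2 - ε < distInt y → ∃ A : ℤ, |y - A - 1 / 2| < ε := by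
    intro y hy
    unfold distInt at hy
    have hb := abs_sub_round y
    rcases le_or_gt 0 (y - round y) with h | h
    · refine ⟨round y, ?_⟩
      rw [abs_of_nonneg h] at hy hb
      rw [abs_lt]; constructor <;> linarith
    · refine ⟨round y - 1, ?_⟩
      rw [abs_of_neg h] at hy hb
      push_cast
      rw [abs_lt]; constructor <;> linarith
  obtain ⟨A, hA⟩ := key _ h1
  obtain ⟨B, hB⟩ := key _ h2
  have e : ((2 * ((w : ℤ) * A - v * B) + ((w : ℤ) - v) : ℤ) : ℝ) =
      2 * ((v : ℝ) * (t * w - B - 1 / 2) - w * (t * v - A - 1 / 2)) := by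
    push_cast; ring
  have hne : 2 * ((w : ℤ) * A - v * B) + ((w : ℤ) - v) ≠ 0 := by
    intro h0
    apply hpar
    exact ⟨(w : ℤ) * A - v * B, by linarith⟩
  have h3 : (1 : ℝ) ≤ |((2 * ((w : ℤ) * A - v * B) + ((w : ℤ) - v) : ℤ) : ℝ)| := by
    exact_mod_cast Int.one_le_abs hne
  rw [e, abs_mul, abs_two] at h3
  have h4 : |(v : ℝ) * (t * w - B - 1 / 2) - w * (t * v - A - 1 / 2)| <
      (v : ℝ) * ε + w * ε := by
    refine lt_of_le_of_lt (abs_sub _ _) ?_
    rw [abs_mul, abs_mul, abs_of_pos hv', abs_of_nonneg hw']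
    have h5 := mul_lt_mul_of_pos_left hB hv'
    have h6 := mul_le_mul_of_nonneg_left hA.le hw'
    linarith
  have h7 : (v : ℝ) * ε + w * ε = 1 / 2 := by linarith
  linarith

/-- The extra speed. -/
def extra (a p : ℕ) : ℕ := if p ∣ a + 1 then 1 + 2 * a else 1

/-- The set of speeds `{a (p k - 1) : 1 ≤ k ≤ n - 1} ∪ {x}`. -/
def speeds (a p n : ℕ) : Finset ℕ :=
  insert (extra a p) ((Finset.range (n - 1)).image fun k => a * (p * (k + 1) - 1))

/-- **The loneliness gap can drop under translation.** For every positive integer `a`, every odd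
prime `p` that does not divide `a` and every `n > p` there is a set `V` of `n` positive integers such
that the greatest common divisors of `V` and of `a + V` are `1`, the loneliness gap of `V` lies in
`[1 / p, 1 / 2)` and the loneliness gap of `a + V` is at most `1 / n`, hence smaller than that of
`V`. -/
theorem result (a p n : ℕ) (ha : 0 < a) (hp : p.Prime) (hp2 : p ≠ 2) (hpa : ¬ p ∣ a) (hn : p < n) :
    ∃ V : Finset ℕ, V.card = n ∧ (∀ v ∈ V, 0 < v) ∧ V.gcd id = 1 ∧ (translate a V).gcd id = 1 ∧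
      1 / (p : ℝ) ≤ κ V ∧ κ V < 1 / 2 ∧ κ (translate a V) ≤ 1 / (n : ℝ) ∧
      κ (translate a V) < κ V := by
  have hp3 : 3 ≤ p := by
    have := hp.two_le
    omega
  have hn0 : (0 : ℝ) < n := by exact_mod_cast (by omega : 0 < n)
  have hp0 : (0 : ℝ) < p := by exact_mod_cast (by omega : 0 < p)
  -- arithmetic of the extra element
  have hx0 : 0 < extra a p := by unfold extra; split_ifs <;> omega
  have hpx : ¬ p ∣ extra a p := by
    unfold extra
    split_ifs with h
    · intro h2
      have h3 : p ∣ 2 * (a + 1) - (1 + 2 * a) := Nat.dvd_sub (h.mul_left 2) h2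
      have h4 : 2 * (a + 1) - (1 + 2 * a) = 1 := by omega
      rw [h4] at h3
      exact hp.one_lt.ne' (Nat.dvd_one.1 h3)
    · intro h2
      exact hp.one_lt.ne' (Nat.dvd_one.1 h2)
  have hpax : ¬ p ∣ a + extra a p := by
    unfold extra
    split_ifs with h
    · intro h2
      have h3 : p ∣ 3 * (a + 1) - (a + (1 + 2 * a)) := Nat.dvd_sub (h.mul_left 3) h2
      have h4 : 3 * (a + 1) - (a + (1 + 2 * a)) = 2 := by omega
      rw [h4] at h3
      have := Nat.le_of_dvd (by norm_num) h3
      omega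
    · exact h
  have hax : Nat.Coprime a (extra a p) := by
    unfold extra
    split_ifs
    · rw [Nat.coprime_comm]
      have : Nat.Coprime (1 + a * 2) a := by
        rw [Nat.coprime_add_mul_left_left]
        exact Nat.coprime_one_left a
      rwa [mul_comm a 2] at this
    · exact Nat.coprime_one_right a
  have hval : ∀ k : ℕ, a + a * (p * (k + 1) - 1) = a * p * (k + 1) := by
    intro k
    have : 1 ≤ p * (k + 1) := Nat.mul_pos (by omega) (by omega)
    obtain ⟨c, hc⟩ : ∃ c, p * (k + 1) = c + 1 := ⟨p * (k + 1) - 1, by omega⟩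
    rw [hc, Nat.add_sub_cancel, mul_assoc, hc]
    ring
  have hpk : ∀ k : ℕ, ¬ p ∣ a * (p * (k + 1) - 1) := by
    intro k h
    rcases (Nat.Prime.dvd_mul hp).1 h with h1 | h1
    · exact hpa h1
    · have h2 : p ∣ p * (k + 1) - (p * (k + 1) - 1) := Nat.dvd_sub (dvd_mul_right _ _) h1
      have h3 : 1 ≤ p * (k + 1) := Nat.mul_pos (by omega) (by omega)
      have h4 : p * (k + 1) - (p * (k + 1) - 1) = 1 := by omega
      rw [h4] at h2
      exact hp.one_lt.ne' (Nat.dvd_one.1 h2)
  have hposk : ∀ k : ℕ, 0 < a * (p * (k + 1) - 1) := by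
    intro k
    rcases Nat.eq_zero_or_pos (a * (p * (k + 1) - 1)) with h | h
    · exact absurd (h ▸ dvd_zero p) (hpk k)
    · exact h
  set V := speeds a p n with hV
  have hmemx : extra a p ∈ V := Finset.mem_insert_self _ _
  have hmemk : ∀ k < n - 1, a * (p * (k + 1) - 1) ∈ V := fun k hk =>
    Finset.mem_insert_of_mem (Finset.mem_image_of_mem _ (Finset.mem_range.2 hk))
  have hVne : V.Nonempty := ⟨_, hmemx⟩
  have hcases : ∀ v ∈ V, v = extra a p ∨ ∃ k, a * (p * (k + 1) - 1) = v := by
    intro v hv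
    rcases Finset.mem_insert.1 hv with h | h
    · exact Or.inl h
    · obtain ⟨k, -, hk⟩ := Finset.mem_image.1 h
      exact Or.inr ⟨k, hk⟩
  have hdvd : ∀ v ∈ V, ¬ p ∣ v := by
    intro v hv
    rcases hcases v hv with rfl | ⟨k, rfl⟩
    · exact hpx
    · exact hpk k
  have hcard : V.card = n := by
    rw [hV, speeds, Finset.card_insert_of_notMem, Finset.card_image_of_injOn, Finset.card_range]
    · omega
    · intro x _ y _ hxy
      have h1 : a + a * (p * (x + 1) - 1) = a + a * (p * (y + 1) - 1) := by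
        simp only at hxy
        rw [hxy]
      rw [hval, hval] at h1
      have h2 := Nat.eq_of_mul_eq_mul_left (Nat.mul_pos ha (by omega : 0 < p)) h1
      omega
    · intro h
      obtain ⟨k, -, hk⟩ := Finset.mem_image.1 h
      apply hpax
      rw [← hk, hval]
      exact ⟨a * (k + 1), by ring⟩
  have hpos : ∀ v ∈ V, 0 < v := by
    intro v hv
    rcases hcases v hv with rfl | ⟨k, rfl⟩
    · exact hx0
    · exact hposk k
  have hg1 : V.gcd id = 1 := by
    have h1 : V.gcd id ∣ extra a p := Finset.gcd_dvd hmemx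
    have h2 : V.gcd id ∣ a * (p * (0 + 1) - 1) := Finset.gcd_dvd (hmemk 0 (by omega))
    have h3 : V.gcd id ∣ a * (p * (1 + 1) - 1) := Finset.gcd_dvd (hmemk 1 (by omega))
    have h4 : V.gcd id ∣ 2 * (a * (p * (0 + 1) - 1)) + a - a * (p * (1 + 1) - 1) := by
      have e : 2 * (a * (p * (0 + 1) - 1)) + a - a * (p * (1 + 1) - 1) = 0 := by
        obtain ⟨q, rfl⟩ : ∃ q, p = q + 1 := ⟨p - 1, by omega⟩
        have e1 : (q + 1) * (0 + 1) - 1 = q := by omega
        have e2 : (q + 1) * (1 + 1) - 1 = 2 * q + 1 := by omega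
        rw [e1, e2]
        have : 2 * (a * q) + a = a * (2 * q + 1) := by ring
        omega
      rw [e]
      exact dvd_zero _
    have h5 : V.gcd id ∣ a := by
      have e : a * (p * (1 + 1) - 1) = 2 * (a * (p * (0 + 1) - 1)) + a := by
        obtain ⟨q, rfl⟩ : ∃ q, p = q + 1 := ⟨p - 1, by omega⟩
        have e1 : (q + 1) * (0 + 1) - 1 = q := by omega
        have e2 : (q + 1) * (1 + 1) - 1 = 2 * q + 1 := by omega
        rw [e1, e2]
        ring
      rw [e] at h3
      exact (Nat.dvd_add_right (h2.mul_left 2)).1 h3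
    exact Nat.dvd_one.1 (hax ▸ Nat.dvd_gcd h5 h1)
  have hT : ∀ v ∈ V, a + v ∈ translate a V := fun v hv => Finset.mem_image_of_mem _ hv
  have hTk : ∀ k < n - 1, a * p * (k + 1) ∈ translate a V := by
    intro k hk
    have := hT _ (hmemk k hk)
    rwa [hval] at this
  have hg2 : (translate a V).gcd id = 1 := by
    have h1 : (translate a V).gcd id ∣ a + extra a p := Finset.gcd_dvd (hT _ hmemx)
    have h2 : (translate a V).gcd id ∣ a * p := by
      have := Finset.gcd_dvd (f := id) (hTk 0 (by omega))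
      simpa using this
    have h3 : Nat.Coprime (a * p) (a + extra a p) := by
      refine Nat.Coprime.mul_left ?_ ?_
      · rw [Nat.coprime_self_add_right]
        exact hax
      · exact (Nat.Prime.coprime_iff_not_dvd hp).2 hpax
    exact Nat.dvd_one.1 (h3 ▸ Nat.dvd_gcd h2 h1)
  have hlow : 1 / (p : ℝ) ≤ κ V := le_κ hVne (1 / (p : ℝ)) fun v hv =>
    dist_div (by omega) (hdvd v hv)
  have hup : κ V < 1 / 2 := by
    -- the two speeds `k = 1, 2` divided by `a` have different parity
    set v : ℕ := p * (0 + 1) - 1 with hv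
    set w : ℕ := p * (1 + 1) - 1 with hw
    have hv0 : 0 < v := by omega
    have hpar : ¬ (2 : ℤ) ∣ (v : ℤ) - w := by
      intro h
      have hodd : p % 2 = 1 := by
        rcases hp.eq_two_or_odd with h | h
        · exact absurd h hp2
        · exact h
      have e1 : (v : ℤ) = p - 1 := by omega
      have e2 : (w : ℤ) = 2 * p - 1 := by omega
      rw [e1, e2] at h
      omega
    have hs : (0 : ℝ) < (v : ℝ) + w := by
      have : (0 : ℝ) < v := by exact_mod_cast hv0
      positivity
    have : κ V ≤ 1 / 2 - 1 / (2 * ((v : ℝ) + w)) := by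
      refine κ_le fun t => ?_
      rcases parity_bound hv0 hpar (t * a) with h | h
      · refine ⟨a * v, hmemk 0 (by omega), ?_⟩
        rw [show t * ((a * v : ℕ) : ℝ) = t * a * v by push_cast; ring]
        exact h
      · refine ⟨a * w, hmemk 1 (by omega), ?_⟩
        rw [show t * ((a * w : ℕ) : ℝ) = t * a * w by push_cast; ring]
        exact h
    have h2 : 0 < 1 / (2 * ((v : ℝ) + w)) := by positivity
    linarith
  have htr : κ (translate a V) ≤ 1 / (n : ℝ) := by
    refine κ_le fun t => ?_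
    obtain ⟨j, k, hk0, hkn, hjk⟩ :=
      Real.exists_int_int_abs_mul_sub_le (t * (a * p : ℕ)) (show 0 < n - 1 by omega)
    obtain ⟨k, rfl⟩ : ∃ c : ℕ, k = c + 1 := ⟨(k - 1).toNat, by omega⟩
    refine ⟨a * p * (k + 1), hTk k (by omega), ?_⟩
    unfold distInt
    refine (round_le _ j).trans ?_
    have e1 : t * ((a * p * (k + 1) : ℕ) : ℝ) - j =
        (((k : ℤ) + 1 : ℤ) : ℝ) * (t * ((a * p : ℕ) : ℝ)) - j := by
      push_cast; ring
    rw [e1]
    refine hjk.trans ?_
    have e2 : ((n - 1 : ℕ) : ℝ) + 1 = n := by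
      rw [Nat.cast_sub (by omega : 1 ≤ n)]; push_cast; ring
    rw [e2]
  refine ⟨V, hcard, hpos, hg1, hg2, hlow, hup, htr, ?_⟩
  have : 1 / (n : ℝ) < 1 / (p : ℝ) := by
    apply one_div_lt_one_div_of_lt hp0
    exact_mod_cast hn
  linarith

end Pool.Agent.Results.MP_64d5df_nt.TranslationShrinksGap
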